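import Pool.Agent.Helper98.TQ.Defs
import Pool.Agent.Helper45.TQ.Coeff
import Pool.Agent.Helper83.Rel.Util
import Pool.Agent.Helper65.CB.HSF
import Pool.Agent.Helper16.CB.Alg

/-!
# TOWERS, quadric cones: TQ3, TQ4
-/

set_option autoImplicit false

namespace Pool.Agent.Helper16.TQ

open NumberField MvPolynomial Pool.Agent.Helper4.CB Pool.Agent.Helper69.CB
open Pool.Agent.Helper65.CL (Bad)
open Pool.Agent.Helper65.CB (HS)
open Pool.Agent.Helper49.QU Pool.Agent.Helper65.TW
open Pool.Agent.Helper83.QM (Iso Rk3)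
open Pool.Agent.Helper98.TQ

/-- **TQ3** -/
theorem hs_of_units {M : Type} [Field M] [NumberField M] {Λ : Finset ℕ} (h2 : 2 ∈ Λ) {J : ℕ}
    {x y : M} (hx : x ≠ 0) (hy : y ≠ 0) (h : ∀ p : Pl M, Bad Λ J p → vl p x = 1 ∧ vl p y = 1) :
    HS M J x y := by
  refine Pool.Agent.Helper83.Rel.hs_of_vals hx hy fun p hp => ?_
  obtain ⟨h3, h4⟩ := h p ⟨2, h2, hp⟩
  refine ⟨1, x, y, 1, 1, 0, 0, ?_, ?_, h3, h4, map_one _, ?_⟩
  · rw [pow_zero, one_mul]
  · rw [pow_zero, one_mul]
  · have h5 : (1 : M) ^ 2 * ((-1) ^ (0 * 0) * (x ^ 0 * y ^ 0)) - 1 ^ 2 = 0 := by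
      ring
    rw [h5, map_zero]
    exact zero_lt_one

theorem map_qa {R R' : Type*} [CommRing R] [CommRing R'] {m : ℕ} (φ : R →+* R')
    (B : Matrix (Fin m) (Fin m) R) (v : Fin 3 → Fin m → R) :
    φ (qa B v) = qa (B.map φ) (fun c j => φ (v c j)) := by
  unfold qa
  rw [map_neg, Pool.Agent.Helper11.QU.map_D2]

theorem map_qb {R R' : Type*} [CommRing R] [CommRing R'] {m : ℕ} (φ : R →+* R')
    (B : Matrix (Fin m) (Fin m) R) (v : Fin 3 → Fin m → R) :
    φ (qb B v) = qb (B.map φ) (fun c j => φ (v c j)) := by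
  unfold qb
  rw [map_neg, map_mul, map_mul, Pool.Agent.Helper11.QU.map_D1, Pool.Agent.Helper11.QU.map_D2,
    Pool.Agent.Helper11.QU.map_D3]

/-- four integral numbers with product one are units -/
theorem units_of_prod {Γ : Type*} [LinearOrderedCommGroupWithZero Γ] {a b c d : Γ} (ha : a ≤ 1)
    (hb : b ≤ 1) (hc : c ≤ 1) (hd : d ≤ 1) (h : a * b * c * d = 1) : a = 1 ∧ b = 1 ∧ c = 1 := by
  have key : ∀ x y : Γ, x ≤ 1 → y ≤ 1 → x * y = 1 → x = 1 := by
    intro x y hx hy hxy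
    refine le_antisymm hx ?_
    rw [← hxy]
    exact mul_le_of_le_one_right' hy
  refine ⟨?_, ?_, ?_⟩
  · refine key a (b * c * d) ha (mul_le_one' (mul_le_one' hb hc) hd) ?_
    rw [← h, mul_assoc, mul_assoc, mul_assoc]
  · refine key b (a * c * d) hb (mul_le_one' (mul_le_one' ha hc) hd) ?_
    rw [← h, ← mul_assoc, ← mul_assoc, mul_comm b a]
  · refine key c (a * b * d) hc (mul_le_one' (mul_le_one' ha hb) hd) ?_
    rw [← h, ← mul_assoc, ← mul_assoc, mul_comm c a, mul_right_comm a c b]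

/-- **TQ4** -/
theorem iso_points {K M R : Type} [Field K] [Field M] [NumberField M] [Algebra K M] [CommRing R]
    [IsDomain R] [Algebra K R] {Λ : Finset ℕ} (h2 : 2 ∈ Λ) {t : Ideal R} {N : ℕ}
    (q : Matrix (Fin N) (Fin N) R) (hq : q.IsSymm) (ha : aP q ≠ 0)
    (hstr : ∀ (G' τ' : Finset (Localization.Away (aP q))),
      t.map (algebraMap R (Localization.Away (aP q))) ≤ Ideal.span (τ' : Set _) →
      ∃ J0 : ℕ, ∀ J, J0 ≤ J → ∀ f : Localization.Away (aP q), f ≠ 0 →
        ∃ φ : Localization.Away (aP q) →ₐ[K] M, φ f ≠ 0 ∧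
          ∀ p : Pl M, Bad Λ J p → (∀ g ∈ G', vl p (φ g) ≤ 1) ∧ ∃ x ∈ τ', vl p (φ x) = 1)
    (G τ : Finset R) (hτ : Ideal.span (τ : Set R) = t) (J1 : ℕ) :
    ∃ (J : ℕ) (_ : J1 ≤ J) (L : Type) (_ : Field L) (_ : NumberField L) (_ : Algebra M L)
      (_ : Algebra K L) (_ : IsScalarTower K M L), ∀ f : R, f ≠ 0 →
        ∃ φ : R →ₐ[K] M, φ f ≠ 0 ∧
        (∀ p : Pl M, Bad Λ J p → (∀ g ∈ G, vl p (φ g) ≤ 1) ∧ ∃ x ∈ τ, vl p (φ x) = 1) ∧
        Iso (q.map fun x => algebraMap M L (φ x)) := by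
  classical
  set A := Localization.Away (aP q) with hA
  let ι : R →+* A := algebraMap R A
  let κ : MvPolynomial (Fin (3 * N)) R →+* A := algebraMap (MvPolynomial (Fin (3 * N)) R) A
  have hικ : ∀ r, ι r = κ (C r) := fun r => rfl
  let d1 : A := κ (D1 (q.map C) (vv R N))
  let d2 : A := κ (D2 (q.map C) (vv R N))
  let d3 : A := κ (D3 (q.map C) (vv R N))
  obtain ⟨iv, hiv⟩ : ∃ iv : A, κ (aP q) * iv = 1 :=
    (IsLocalization.Away.algebraMap_isUnit (S := A) (aP q)).exists_right_inv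
  obtain ⟨J0, hJ0⟩ := hstr (G.image ι ∪ {d1, d2, d3, iv}) (τ.image ι) (by
    rw [← hτ, Ideal.map_span, Finset.coe_image])
  obtain ⟨L, iF, iA, hfin, hL⟩ := Pool.Agent.Helper65.CB.solve M (max J0 J1)
    (Pool.Agent.Helper16.CB.algebraic_block M (max J0 J1))
  letI iKL : Algebra K L := ((algebraMap M L).comp (algebraMap K M)).toAlgebra
  haveI : NumberField L := NumberField.of_module_finite M L
  refine ⟨max J0 J1, le_max_right _ _, L, iF, inferInstance, iA, iKL,
    IsScalarTower.of_algebraMap_eq fun _ => rfl, ?_⟩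
  intro f hf
  have hinj : Function.Injective κ := IsLocalization.injective A
    (powers_le_nonZeroDivisors_of_noZeroDivisors ha)
  have hf' : ι f ≠ 0 := by
    rw [hικ]
    intro h
    exact hf (C_injective _ _ (hinj (h.trans (map_zero κ).symm) |>.trans (map_zero C).symm))
  obtain ⟨φ', hφf, hφ⟩ := hJ0 (max J0 J1) (le_max_left _ _) (ι f) hf'
  let φ : R →ₐ[K] M := φ'.comp (IsScalarTower.toAlgHom K R A)
  have hφι : ∀ r, φ r = φ' (ι r) := fun r => rfl
  refine ⟨φ, hφf, ?_, ?_⟩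
  · intro p hp
    obtain ⟨h3, x, hx, h4⟩ := hφ p hp
    refine ⟨fun g hg => h3 (ι g) (Finset.mem_union_left _ (Finset.mem_image_of_mem ι hg)), ?_⟩
    obtain ⟨y, hy, rfl⟩ := Finset.mem_image.1 hx
    exact ⟨y, hy, h4⟩
  · -- the conic over `M`
    let V : Fin 3 → Fin N → M := fun c j => φ' (κ (vv R N c j))
    let ψ : MvPolynomial (Fin (3 * N)) R →+* M := (φ' : A →+* M).comp κ
    have hqψ : (q.map C).map ψ = q.map (φ : R →+* M) := by
      ext i j
      rfl
    have e1 : φ' d1 = D1 (q.map (φ : R →+* M)) V := by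
      rw [← hqψ]
      exact Pool.Agent.Helper11.QU.map_D1 ψ (q.map C) (vv R N)
    have e2 : φ' d2 = D2 (q.map (φ : R →+* M)) V := by
      rw [← hqψ]
      exact Pool.Agent.Helper11.QU.map_D2 ψ (q.map C) (vv R N)
    have e3 : φ' d3 = D3 (q.map (φ : R →+* M)) V := by
      rw [← hqψ]
      exact Pool.Agent.Helper11.QU.map_D3 ψ (q.map C) (vv R N)
    have hprod : φ' d1 * φ' d2 * φ' d3 * φ' iv = 1 := by
      rw [← map_mul, ← map_mul, ← map_mul]
      have : d1 * d2 * d3 * iv = 1 := by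
        rw [← hiv]
        change κ _ * κ _ * κ _ * iv =
          κ (D1 (q.map C) (vv R N) * D2 (q.map C) (vv R N) * D3 (q.map C) (vv R N)) * iv
        rw [map_mul, map_mul]
      rw [this, map_one]
    have n1 : D1 (q.map (φ : R →+* M)) V ≠ 0 := by
      rw [← e1]
      intro h
      rw [h, zero_mul, zero_mul, zero_mul] at hprod
      exact zero_ne_one hprod
    have n2 : D2 (q.map (φ : R →+* M)) V ≠ 0 := by
      rw [← e2]
      intro h
      rw [h, mul_zero, zero_mul, zero_mul] at hprod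
      exact zero_ne_one hprod
    have n3 : D3 (q.map (φ : R →+* M)) V ≠ 0 := by
      rw [← e3]
      intro h
      rw [h, mul_zero, zero_mul] at hprod
      exact zero_ne_one hprod
    have hHS : HS M (max J0 J1) (qa (q.map (φ : R →+* M)) V) (qb (q.map (φ : R →+* M)) V) := by
      refine hs_of_units h2 (neg_ne_zero.2 n2) (neg_ne_zero.2 (mul_ne_zero (mul_ne_zero n1 n2) n3))
        fun p hp => ?_
      obtain ⟨h3, -⟩ := hφ p hp
      have g1 := h3 d1 (Finset.mem_union_right _ (by simp))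
      have g2 := h3 d2 (Finset.mem_union_right _ (by simp))
      have g3 := h3 d3 (Finset.mem_union_right _ (by simp))
      have g4 := h3 iv (Finset.mem_union_right _ (by simp))
      have hp1 : vl p (φ' d1) * vl p (φ' d2) * vl p (φ' d3) * vl p (φ' iv) = 1 := by
        rw [← map_mul, ← map_mul, ← map_mul, hprod, map_one]
      obtain ⟨u1, u2, u3⟩ := units_of_prod g1 g2 g3 g4 hp1
      rw [e1] at u1
      rw [e2] at u2
      rw [e3] at u3
      refine ⟨?_, ?_⟩
      · unfold qa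
        rw [Valuation.map_neg, u2]
      · unfold qb
        rw [Valuation.map_neg, map_mul, map_mul, u1, u2, u3, one_mul, one_mul]
    obtain ⟨-, -, X, Y, hXY⟩ := hL _ _ hHS
    -- the conic over `L`
    have hm : (q.map fun x => algebraMap M L (φ x)) = (q.map (φ : R →+* M)).map (algebraMap M L) := by
      ext i j
      rfl
    rw [hm]
    have hs : ((q.map (φ : R →+* M)).map (algebraMap M L)).IsSymm := (hq.map _).map _
    refine (Pool.Agent.Helper16.QM.iso_of_conic _ hs (fun c j => algebraMap M L (V c j)) ?_ ?_ ?_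
      X Y ?_).1
    · rw [← Pool.Agent.Helper11.QU.map_D1]
      exact (map_ne_zero _).2 n1
    · rw [← Pool.Agent.Helper11.QU.map_D2]
      exact (map_ne_zero _).2 n2
    · rw [← Pool.Agent.Helper11.QU.map_D3]
      exact (map_ne_zero _).2 n3
    · rw [← map_qa, ← map_qb]
      linear_combination hXY

end Pool.Agent.Helper16.TQ
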